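import Pool.Agent.R26.Anti

/-!
# The realizability preorder on perfect matchings is antisymmetric

The vertices `1, ..., n` of the problem are the elements of `Fin n` in their natural order.  A perfect
matching of the complete graph is a subgraph `M` of `⊤` with `M.IsPerfectMatching`.
-/

set_option autoImplicit false

namespace Pool.Agent.Results.MP_cd59f5_co.Antisymmetric

/-- `CanRealize d M`: some simple graph on `Fin n` has degree `d i` at each vertex `i` and contains all
edges of the matching `M`. -/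
def CanRealize {n : ℕ} (d : Fin n → ℕ) (M : (⊤ : SimpleGraph (Fin n)).Subgraph) : Prop :=
  ∃ G : SimpleGraph (Fin n), (∀ i, (G.neighborSet i).ncard = d i) ∧ M.edgeSet ⊆ G.edgeSet

/-- `R M` is the set of the non-increasing sequences of positive integers which can realize `M`. -/
def R {n : ℕ} (M : (⊤ : SimpleGraph (Fin n)).Subgraph) : Set (Fin n → ℕ) :=
  {d | (∀ i j, i ≤ j → d j ≤ d i) ∧ (∀ i, 1 ≤ d i) ∧ CanRealize d M}

/-- `N ≼ M`: every sequence that can realize `M` can realize `N`. -/
def Below {n : ℕ} (N M : (⊤ : SimpleGraph (Fin n)).Subgraph) : Prop := R M ⊆ R N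

/-- For every `n` the relation `≼` on the perfect matchings of the complete graph on `n` labelled
vertices is antisymmetric. -/
theorem result (n : ℕ) (M N : (⊤ : SimpleGraph (Fin n)).Subgraph) (hM : M.IsPerfectMatching)
    (hN : N.IsPerfectMatching) (h1 : Below M N) (h2 : Below N M) : M = N := by
  have part : ∀ K : (⊤ : SimpleGraph (Fin n)).Subgraph, K.IsPerfectMatching →
      ∃ μ : Fin n → Fin n, R26.Anti.Inv μ ∧ ∀ i j, K.Adj i j ↔ μ i = j := by
    intro K hK
    have h3 : ∀ i, ∃! j, K.Adj i j := fun i => hK.1 (hK.2 i)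
    choose μ hμ hμ' using h3
    refine ⟨μ, ⟨fun i => ?_, fun i h => ?_⟩, fun i j => ⟨fun h => (hμ' i j h).symm, fun h => ?_⟩⟩
    · exact (hμ' _ _ (hμ i).symm).symm
    · have := K.adj_sub (hμ i)
      exact this.ne h.symm
    · rw [← h]; exact hμ i
  obtain ⟨μ, hμ, hMμ⟩ := part M hM
  obtain ⟨ν, hν, hNν⟩ := part N hN
  have hs : ∀ K : (⊤ : SimpleGraph (Fin n)).Subgraph, K.IsPerfectMatching →
      R K = R26.Anti.R K.spanningCoe := by
    intro K _
    ext d
    constructor
    · rintro ⟨h3, h4, G, h5, h6⟩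
      refine ⟨fun i j hij => h3 i j hij, h4, G, h5, fun i j h => ?_⟩
      exact h6 ((SimpleGraph.Subgraph.mem_edgeSet).2 h)
    · rintro ⟨h3, h4, G, h5, h6⟩
      refine ⟨fun i j hij => h3 hij, h4, G, h5, fun e => ?_⟩
      induction e using Sym2.inductionOn with
      | hf i j => exact fun h => h6 ((SimpleGraph.Subgraph.mem_edgeSet).1 h)
  have h3 : μ = ν := by
    refine R26.Anti.main M.spanningCoe N.spanningCoe μ ν hμ hν (fun i j => hMμ i j)
      (fun i j => hNν i j) ?_ ?_
    · rw [← hs M hM, ← hs N hN]; exact h2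
    · rw [← hs M hM, ← hs N hN]; exact h1
  refine SimpleGraph.Subgraph.ext ?_ ?_
  · rw [Set.eq_univ_of_forall hM.2, Set.eq_univ_of_forall hN.2]
  · funext i j
    rw [hMμ, hNν, h3]

end Pool.Agent.Results.MP_cd59f5_co.Antisymmetric
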